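import Mathlib
import Pool.Agent.Lib.helper11.Cover

namespace Pool.Agent.H.MP_1da4e9_nt

open Pool.Agent.Lib.helper11.Cover

def Free (Z : Set ℤ) : Prop := ∀ x d : ℤ, x ∈ Z → x + d ∈ Z → x + 2 * d ∈ Z → d = 0

lemma Free.mono {Y Z : Set ℤ} (h : Free Z) (hy : Y ⊆ Z) : Free Y :=
  fun x d a b c => h x d (hy a) (hy b) (hy c)

lemma Free.image {Z : Set ℤ} (hZ : Free Z) (k h : ℤ) : Free ((fun x => k * x + h) '' Z) := by
  rintro _ d ⟨x, hx, rfl⟩ ⟨y, hy, e1⟩ ⟨z, hz, e2⟩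
  simp only at e1 e2
  by_cases hk : k = 0
  · subst hk; omega
  · have h1 : z = x + 2 * (y - x) := mul_left_cancel₀ hk (by linarith)
    have h2 := hZ x (y - x) hx (by simpa using hy) (h1 ▸ hz)
    rw [show y = x by omega] at e1; omega

lemma Free.preimage {Z : Set ℤ} (hZ : Free Z) (k h : ℤ) (hk : k ≠ 0) :
    Free ((fun x => k * x + h) ⁻¹' Z) := by
  intro x d a b c
  have := hZ (k * x + h) (k * d) a (by rw [show k * x + h + k * d = k * (x + d) + h by ring]; exact b)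
    (by rw [show k * x + h + 2 * (k * d) = k * (x + 2 * d) + h by ring]; exact c)
  exact (mul_eq_zero.1 this).resolve_left hk

def G (e : Bool) : (ℕ+ × ℤ) ⊕ {Z // Free Z} → Set ℤ
  | Sum.inl t => {n | ((t.1 : ℕ) : ℤ) ∣ n - t.2}
  | Sum.inr Z => if e then Z.1 else ∅

noncomputable def w : (ℕ+ × ℤ) ⊕ {Z // Free Z} → ℝ
  | Sum.inl t => 1 / (t.1 : ℕ)
  | Sum.inr _ => 0

lemma sys (e : Bool) : Sys (G e) w :=
  ⟨by rintro (t | Z) <;> simp [w], {Sum.inl (1, 0)}, by simp [G], by simp [w]⟩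

noncomputable def nu (e : Bool) : Set ℤ → ℝ := mu (G e) w

lemma nu_free {Z : Set ℤ} (h : Free Z) : nu true Z = 0 :=
  le_antisymm (mu_le_gen (sys true) (Sum.inr ⟨Z, h⟩) (by simp [G])) (mu_nonneg (sys true) _)

lemma aff (e : Bool) (k : ℕ) (hk : 0 < k) (h : ℤ) (Z : Set ℤ) :
    nu e ((fun x => k * x + h) '' Z) = nu e Z / k := by
  have hk' : (0 : ℝ) < k := by exact_mod_cast hk
  refine affine (sys e) k hk h ?_ ?_ Z
  · rintro (⟨a, c⟩ | Y)
    · refine (mu_le_gen (sys e) (Sum.inl (⟨k, hk⟩ * a, k * c + h)) ?_).trans (le_of_eq ?_)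
      · rintro _ ⟨y, ⟨x, h1⟩, rfl⟩
        exact ⟨x, by simp only at h1; simp [show y = a * x + c by linarith]; ring⟩
      · simp [w]; field_simp
    · refine (mu_le_gen (sys e) (Sum.inr ⟨_, Y.2.image k h⟩) ?_).trans (by simp [w])
      cases e <;> simp [G]
  · rintro (⟨a, c⟩ | Y)
    · obtain ⟨x0, h0⟩ := ap_pull k a hk h c
      obtain ⟨p, q, -, hp, hq⟩ := Nat.exists_coprime k a
      have hg : 0 < Nat.gcd k a := Nat.gcd_pos_of_pos_left _ hk
      rw [show a / Nat.gcd k a = q from Nat.div_eq_of_eq_mul_left hg hq] at h0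
      generalize Nat.gcd k a = g at *
      have hq0 : 0 < q := Nat.pos_of_mul_pos_right (hq ▸ a.pos)
      have hp0 : 1 ≤ p := Nat.pos_of_mul_pos_right (hp ▸ hk)
      refine (mu_le_gen (sys e) (Sum.inl (⟨q, hq0⟩, x0)) fun y hy => h0 y hy).trans ?_
      simp only [w, hq, hp, PNat.mk_coe]
      have : (1 : ℝ) ≤ p := by exact_mod_cast hp0
      push_cast; field_simp; linarith
    · refine (mu_le_gen (sys e) (Sum.inr ⟨_, Y.2.preimage k h (by omega)⟩) ?_).trans (by simp [w])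
      cases e <;> simp [G]

lemma miss (F : Finset ((ℕ+ × ℤ) ⊕ {Z // Free Z})) (hw : ∑ i ∈ F, w i < 1) :
    ∃ (M : ℕ) (r : ℤ), 0 < M ∧ ∀ n, (M : ℤ) ∣ n - r → ∀ t : ℕ+ × ℤ, Sum.inl t ∈ F →
      ¬ ((t.1 : ℕ) : ℤ) ∣ n - t.2 := by
  have h1 : ∑ t ∈ F.toLeft, (1 : ℝ) / (t.1 : ℕ) = ∑ i ∈ F, w i := by
    rw [← Finset.toLeft_disjSum_toRight (u := F), Finset.sum_disjSum]
    simp [w]
  obtain ⟨r, hr⟩ := ap_miss F.toLeft (fun t => t.1) (fun t => t.2) (fun t => t.1.pos) (h1 ▸ hw)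
  refine ⟨∏ t ∈ F.toLeft, t.1, r, Finset.prod_pos fun t _ => t.1.pos, fun n hn t ht h => ?_⟩
  have h6 : t ∈ F.toLeft := Finset.mem_toLeft.2 ht
  have h7 : ((t.1 : ℕ) : ℤ) ∣ ((∏ t ∈ F.toLeft, (t.1 : ℕ) : ℕ) : ℤ) :=
    Int.natCast_dvd_natCast.2 (Finset.dvd_prod_of_mem (fun t : ℕ+ × ℤ => (t.1 : ℕ)) h6)
  have h8 := h.sub (h7.trans hn)
  rw [show n - t.2 - (n - r) = r - t.2 by ring] at h8
  exact hr t h6 h8

lemma nu_false {Z : Set ℤ} (h : ∀ (M : ℕ) (r : ℤ), 0 < M → ∃ n ∈ Z, (M : ℤ) ∣ n - r) :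
    nu false Z = 1 := by
  refine le_antisymm (mu_le_one (sys _) _) (le_mu (sys _) fun F hF => not_lt.1 fun hc => ?_)
  obtain ⟨M, r, hM, h1⟩ := miss F hc
  obtain ⟨n, hn, h2⟩ := h M r hM
  obtain ⟨t | Y, hi, h3⟩ := Set.mem_iUnion₂.1 (hF hn)
  · exact h1 n h2 t hi h3
  · simp [G] at h3

lemma nu_top (e : Bool) {Z : Set ℤ} (h : Set.Ici 1 ⊆ Z) : nu e Z = 1 := by
  refine le_antisymm (mu_le_one (sys _) _) (le_mu (sys _) fun F hF => not_lt.1 fun hc => ?_)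
  obtain ⟨M, r, hM, h1⟩ := miss F hc
  have h2 : ∀ j : ℕ, ∃ Y : F.toRight, r + M * (|r| + 1 + j) ∈ Y.1.1 := by
    intro j
    have h3 : 1 ≤ r + M * (|r| + 1 + j) := by
      have : (1 : ℤ) ≤ M := by exact_mod_cast hM
      nlinarith [neg_abs_le r, abs_nonneg r, Int.natCast_nonneg j]
    obtain ⟨t | Y, hi, h4⟩ := Set.mem_iUnion₂.1 (hF (h h3))
    · exact absurd h4 (h1 _ (by simp) t hi)
    · refine ⟨⟨Y, Finset.mem_toRight.2 hi⟩, ?_⟩
      cases e <;> simp_all [G]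
  choose C hC using h2
  obtain ⟨a, ha, b, c, h3⟩ := Combinatorics.exists_mono_homothetic_copy ({0, 1, 2} : Finset ℕ) C
  have h4 := fun s hs => h3 s hs ▸ hC (a • s + b)
  have h5 := c.1.2 (r + M * (|r| + 1 + b)) (M * a) (by simpa using h4 0 (by simp))
    (by convert h4 1 (by simp) using 1; simp; ring) (by convert h4 2 (by simp) using 1; simp; ring)
  have : (0 : ℤ) < M * a := by positivity
  omega

def W : Set ℤ := {x | ∃ n : ℕ, 2 ≤ n ∧ x = (n.factorial + n : ℕ)}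

lemma W_pos : W ⊆ Set.Ici 1 := by
  rintro _ ⟨n, h, rfl⟩
  simp only [Set.mem_Ici]; omega

lemma W_gap (a b : ℕ) (ha : 2 ≤ a) (h : a < b) :
    2 * (a.factorial + a) ≤ b.factorial + b + 1 ∧ 2 ≤ a.factorial := by
  have h1 : (a + 1).factorial ≤ b.factorial := Nat.factorial_le h
  have h2 := Nat.self_le_factorial a
  rw [Nat.factorial_succ] at h1
  constructor <;> nlinarith

lemma W_free : Free W := by
  rintro _ d ⟨a, ha, rfl⟩ ⟨b, hb, e1⟩ ⟨c, hc, e2⟩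
  have h1 := W_gap b a hb
  have h2 := W_gap b c hb
  have h3 := W_gap a b ha
  have h4 := W_gap c b hc
  rcases lt_trichotomy a b with h | rfl | h <;> [skip; omega; skip] <;>
    rcases lt_trichotomy c b with g | rfl | g <;> omega

lemma nu_W : nu false W = 1 := by
  refine nu_false fun M r hM => ?_
  obtain ⟨n, h1, h2⟩ : ∃ n : ℕ, (n : ℤ) = r + M * (|r| + 3) ∧ M + 2 ≤ n := by
    have : (1 : ℤ) ≤ M := by exact_mod_cast hM
    have h : (M : ℤ) + 2 ≤ r + M * (|r| + 3) := by nlinarith [neg_abs_le r, abs_nonneg r]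
    exact ⟨(r + M * (|r| + 3)).toNat, by omega, by omega⟩
  refine ⟨_, ⟨n, by omega, rfl⟩, ?_⟩
  push_cast
  rw [h1, show (n.factorial : ℤ) + (r + M * (|r| + 3)) - r = n.factorial + M * (|r| + 3) by ring]
  exact (Int.natCast_dvd_natCast.2 (Nat.dvd_factorial hM (by omega))).add (by simp)

end Pool.Agent.H.MP_1da4e9_nt
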